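import Pool.Agent.Q82.SchMain

open Set UniformSpace Pool.Agent.Q82.Sch

namespace Pool.Agent.Results.MP_a8437e_an.ProperInclusion

/-- For every `n ≥ 1`, on the Schreier space `X[S_n]` (real or complex) there is an operator that
lies in every non-trivial spatial ideal but not in the closure of the operators that factor
through `c₀`. -/
theorem result (𝕜 : Type) [RCLike 𝕜] (n : ℕ) (hn : 1 ≤ n) :
    ∃ T : Op 𝕜 n, (∀ I : Set (Op 𝕜 n), IsNontrivialSpatial I → T ∈ I) ∧
      T ∉ closure (factorC0 : Set (Op 𝕜 n)) := by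
  obtain ⟨S⟩ := exists_sys hn (N := (univ : Set ℕ+)) infinite_univ
  refine ⟨S.op S 𝕜, ?_, S.op_not_mem_closure⟩
  rintro I ⟨⟨N, _, hI⟩, hK, _⟩
  obtain ⟨S'⟩ := exists_sys hn (infinite_of_nontrivial hI hK)
  have h : S.op S 𝕜 = (S'.op S 𝕜).comp ((proj N).comp (S.op S' 𝕜)) := by
    rw [S.proj_op S' 𝕜, Sys.op_comp]
  rw [hI, h]
  exact mem_closedIdeal _ _ _

end Pool.Agent.Results.MP_a8437e_an.ProperInclusion
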